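import Pool.Agent.Helper57_K9.Stmts
import Pool.Agent.Helper69_KF.K4
import Pool.Agent.Helper94_PP.LemQ

/-!
# Squad K9: common tools for the modules DT3 and K9
-/

open scoped BigOperators

noncomputable section

namespace Pool.Agent.PP.K9.H11

open Pool.Agent.Helper51_AWC Pool.Agent.Helper79_WRA Pool.Agent.PP Pool.Agent.PP.KF

attribute [local instance] Ideal.Quotient.field

section inner

variable {G : Type} [Group G] [Finite G]

/-- the inner product as a sum -/
theorem ipn_eq [Fintype G] (f h : G → ℂ) :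
    ipn f h = (Nat.card G : ℂ)⁻¹ * ∑ x, f x * starRingEnd ℂ (h x) := by
  rw [ipn, finsum_eq_sum_of_fintype]

theorem ipn_self {χ : G → ℂ} (hχ : χ ∈ Irr G) : ipn χ χ = 1 := by
  have := Fintype.ofFinite G
  rw [ipn_eq]
  have h1 : ∑ x, χ x * starRingEnd ℂ (χ x) = Fintype.card G := by
    rw [← irr_orth_self hχ]
    exact Finset.sum_congr rfl fun x _ => by rw [H94.irr_star hχ]
  rw [h1, ← Nat.card_eq_fintype_card]
  exact inv_mul_cancel₀ (by exact_mod_cast Nat.card_pos.ne')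

theorem ipn_ne {χ ψ : G → ℂ} (hχ : χ ∈ Irr G) (hψ : ψ ∈ Irr G) (hne : χ ≠ ψ) : ipn χ ψ = 0 := by
  have := Fintype.ofFinite G
  rw [ipn_eq]
  have h1 : ∑ x, χ x * starRingEnd ℂ (ψ x) = 0 := by
    rw [← irr_orth_ne hχ hψ hne]
    exact Finset.sum_congr rfl fun x _ => by rw [H94.irr_star hψ]
  rw [h1, mul_zero]

theorem ipn_sub_left (f g h : G → ℂ) : ipn (f - g) h = ipn f h - ipn g h := by
  have := Fintype.ofFinite G
  simp only [ipn_eq, Pi.sub_apply, sub_mul, Finset.sum_sub_distrib, mul_sub]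

theorem ipn_sub_right (f g h : G → ℂ) : ipn f (g - h) = ipn f g - ipn f h := by
  have := Fintype.ofFinite G
  simp only [ipn_eq, Pi.sub_apply, map_sub, mul_sub, Finset.sum_sub_distrib]

/-- the inner product of two integral combinations of different irreducible characters -/
theorem ipn_comb {S : Set (G → ℂ)} (hS : S ⊆ Irr G) [Fintype S] (a b : S → ℤ) :
    ipn (∑ θ : S, a θ • (θ : G → ℂ)) (∑ θ : S, b θ • (θ : G → ℂ)) =
      ((∑ θ : S, a θ * b θ : ℤ) : ℂ) := by
  classical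
  have := Fintype.ofFinite G
  have h1 : ∀ x : G, (∑ θ : S, a θ • (θ : G → ℂ)) x = ∑ θ : S, (a θ : ℂ) * (θ : G → ℂ) x := by
    intro x
    rw [Finset.sum_apply]
    exact Finset.sum_congr rfl fun θ _ => by rw [Pi.smul_apply, zsmul_eq_mul]
  have h2 : ∀ x : G, (∑ θ : S, b θ • (θ : G → ℂ)) x = ∑ θ : S, (b θ : ℂ) * (θ : G → ℂ) x := by
    intro x
    rw [Finset.sum_apply]
    exact Finset.sum_congr rfl fun θ _ => by rw [Pi.smul_apply, zsmul_eq_mul]
  rw [ipn_eq]
  simp only [h1, h2]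
  have h3 : ∀ x : G, (∑ θ : S, (a θ : ℂ) * (θ : G → ℂ) x) *
      starRingEnd ℂ (∑ θ : S, (b θ : ℂ) * (θ : G → ℂ) x) =
      ∑ θ : S, ∑ η : S, ((a θ : ℂ) * (b η : ℂ)) *
        ((θ : G → ℂ) x * starRingEnd ℂ ((η : G → ℂ) x)) := by
    intro x
    rw [map_sum, Finset.sum_mul_sum]
    refine Finset.sum_congr rfl fun θ _ => Finset.sum_congr rfl fun η _ => ?_
    rw [map_mul, map_intCast]
    ring
  simp only [h3]
  rw [Finset.sum_comm, Finset.mul_sum]
  push_cast
  refine Finset.sum_congr rfl fun θ _ => ?_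
  rw [Finset.sum_comm, Finset.mul_sum, Finset.sum_eq_single_of_mem θ (Finset.mem_univ _)]
  · rw [← Finset.mul_sum]
    have h4 := ipn_self (hS θ.2)
    rw [ipn_eq] at h4
    calc _ = (a θ : ℂ) * (b θ : ℂ) * ((Nat.card G : ℂ)⁻¹ *
        ∑ x, (θ : G → ℂ) x * starRingEnd ℂ ((θ : G → ℂ) x)) := by ring
      _ = _ := by rw [h4, mul_one]
  · intro η _ hη
    rw [← Finset.mul_sum]
    have h4 := ipn_ne (hS θ.2) (hS η.2) (fun h => hη (Subtype.ext h.symm))
    rw [ipn_eq] at h4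
    calc _ = (a θ : ℂ) * (b η : ℂ) * ((Nat.card G : ℂ)⁻¹ *
        ∑ x, (θ : G → ℂ) x * starRingEnd ℂ ((η : G → ℂ) x)) := by ring
      _ = _ := by rw [h4, mul_zero]

end inner

section av

variable {G H : Type} [Group G] [Group H] {C : Subgroup G}

open Classical in
theorem Av_eq (ℓ : ℕ) [Fintype C] (π : C →* H) (w : G) (p : H → ℂ) (χ : G → ℂ) :
    Av ℓ π w p χ = (Nat.card H : ℂ)⁻¹ *
      ∑ s : C, if Reg ℓ s then χ (w * s) * starRingEnd ℂ (p (π s)) else 0 := by
  rw [Av, finsum_eq_sum_of_fintype]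
  congr 1
  exact Finset.sum_congr rfl fun s _ => finsum_eq_if

theorem Av_smul [Finite G] (ℓ : ℕ) (π : C →* H) (w : G) (c : ℂ) (p : H → ℂ) (χ : G → ℂ) :
    Av ℓ π w (c • p) χ = starRingEnd ℂ c * Av ℓ π w p χ := by
  classical
  have := Fintype.ofFinite C
  rw [Av_eq, Av_eq, mul_left_comm]
  congr 1
  rw [Finset.mul_sum]
  refine Finset.sum_congr rfl fun s _ => ?_
  rw [mul_ite, mul_zero]
  refine ite_congr rfl (fun _ => ?_) (fun _ => rfl)
  rw [Pi.smul_apply, smul_eq_mul, map_mul]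
  ring

theorem Av_add [Finite G] (ℓ : ℕ) (π : C →* H) (w : G) (p q : H → ℂ) (χ : G → ℂ) :
    Av ℓ π w (p + q) χ = Av ℓ π w p χ + Av ℓ π w q χ := by
  classical
  have := Fintype.ofFinite C
  rw [Av_eq, Av_eq, Av_eq, ← mul_add, ← Finset.sum_add_distrib]
  congr 1
  refine Finset.sum_congr rfl fun s _ => ?_
  by_cases h : Reg ℓ s
  · rw [if_pos h, if_pos h, if_pos h, Pi.add_apply, map_add, mul_add]
  · rw [if_neg h, if_neg h, if_neg h, add_zero]

theorem Av_sub [Finite G] (ℓ : ℕ) (π : C →* H) (w : G) (p q : H → ℂ) (χ : G → ℂ) :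
    Av ℓ π w (p - q) χ = Av ℓ π w p χ - Av ℓ π w q χ := by
  have h := Av_add ℓ π w (p - q) q χ
  rw [sub_add_cancel] at h
  rw [h, add_sub_cancel_right]

/-- linearity in the character -/
theorem Av_comb [Finite G] (ℓ : ℕ) (π : C →* H) (w : G) (p : H → ℂ) {S : Set (G → ℂ)} [Fintype S]
    (a : S → ℤ) : Av ℓ π w p (∑ θ : S, a θ • (θ : G → ℂ)) = ∑ θ : S, (a θ : ℂ) * Av ℓ π w p θ := by
  classical
  have := Fintype.ofFinite C
  simp only [Av_eq]
  have h1 : ∀ x : G, (∑ θ : S, a θ • (θ : G → ℂ)) x = ∑ θ : S, (a θ : ℂ) * (θ : G → ℂ) x := by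
    intro x
    rw [Finset.sum_apply]
    exact Finset.sum_congr rfl fun θ _ => by rw [Pi.smul_apply, zsmul_eq_mul]
  simp only [h1]
  have h2 : ∀ s : C, (if Reg ℓ s then (∑ θ : S, (a θ : ℂ) * (θ : G → ℂ) (w * s)) *
      starRingEnd ℂ (p (π s)) else 0) = ∑ θ : S, (a θ : ℂ) *
        (if Reg ℓ s then (θ : G → ℂ) (w * s) * starRingEnd ℂ (p (π s)) else 0) := by
    intro s
    by_cases h : Reg ℓ s
    · simp only [if_pos h]
      rw [Finset.sum_mul]
      exact Finset.sum_congr rfl fun θ _ => by ring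
    · simp only [if_neg h, mul_zero, Finset.sum_const_zero]
  simp only [h2]
  rw [Finset.sum_comm, Finset.mul_sum]
  refine Finset.sum_congr rfl fun θ _ => ?_
  rw [← Finset.mul_sum]
  ring

/-- a sum over the irreducible characters which is supported on `S` -/
theorem sum_irr {S : Set (G → ℂ)} (hS : S ⊆ Irr G) [Fintype S] (f : (G → ℂ) → ℂ)
    (h : ∀ χ ∈ Irr G, χ ∉ S → f χ = 0) : ∑ᶠ χ ∈ Irr G, f χ = ∑ θ : S, f θ := by
  rw [finsum_mem_def, ← finsum_eq_sum_of_fintype, finsum_set_coe_eq_finsum_mem, finsum_mem_def]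
  congr 1
  funext χ
  by_cases h1 : χ ∈ S
  · rw [Set.indicator_of_mem (hS h1), Set.indicator_of_mem h1]
  · rw [Set.indicator_of_notMem h1]
    by_cases h2 : χ ∈ Irr G
    · rw [Set.indicator_of_mem h2, h χ h2 h1]
    · rw [Set.indicator_of_notMem h2]

end av

section omega

/-- the conjugate of a primitive third root of unity -/
theorem conj_om {ω : ℂ} (h : IsPrimitiveRoot ω 3) : starRingEnd ℂ ω = ω ^ 2 := by
  have h1 : ω ^ 3 = 1 := h.pow_eq_one
  have h2 : ‖ω‖ = 1 := Complex.norm_eq_one_of_pow_eq_one h1 (by norm_num)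
  rw [← Complex.inv_eq_conj h2]
  exact inv_eq_of_mul_eq_one_right (by rw [← pow_succ']; exact h1)

theorem om_sq {ω : ℂ} (h : IsPrimitiveRoot ω 3) : ω ^ 2 = -1 - ω := by
  have h1 : ω ^ 3 = 1 := h.pow_eq_one
  have h2 : ω ≠ 1 := h.ne_one (by norm_num)
  have h3 : (ω - 1) * (ω ^ 2 + ω + 1) = 0 := by
    calc _ = ω ^ 3 - 1 := by ring
      _ = 0 := by rw [h1, sub_self]
  have h4 := (mul_eq_zero.1 h3).resolve_left (sub_ne_zero.2 h2)
  linear_combination h4

/-- the norm of an Eisenstein integer -/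
theorem norm_om {ω : ℂ} (h : IsPrimitiveRoot ω 3) (z : ℂ) (hz : ∃ a b : ℤ, z = a + b * ω) :
    ∃ n : ℤ, z * starRingEnd ℂ z = n ∧ 0 ≤ n ∧ (z ≠ 0 → 1 ≤ n) := by
  obtain ⟨a, b, rfl⟩ := hz
  have h1 : ((a : ℂ) + b * ω) * starRingEnd ℂ ((a : ℂ) + b * ω) =
      ((a * a - a * b + b * b : ℤ) : ℂ) := by
    rw [map_add, map_mul, map_intCast, map_intCast, conj_om h]
    have h2 := om_sq h
    have h3 : ω ^ 3 = 1 := h.pow_eq_one
    push_cast
    linear_combination (a * b : ℂ) * h2 + (b * b : ℂ) * h3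
  refine ⟨_, h1, ?_, ?_⟩
  · nlinarith [sq_nonneg (a - b), sq_nonneg a, sq_nonneg b]
  · intro h2
    have h4 : ((a * a - a * b + b * b : ℤ) : ℂ) ≠ 0 := by
      rw [← h1]
      exact mul_ne_zero h2 ((map_ne_zero _).2 h2)
    have h5 : (a * a - a * b + b * b : ℤ) ≠ 0 := by exact_mod_cast h4
    have h6 : 0 ≤ a * a - a * b + b * b := by
      nlinarith [sq_nonneg (a - b), sq_nonneg a, sq_nonneg b]
    omega

end omega

section quot

variable {G : Type} [Group G]

/-- `u` as an element of its centraliser -/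
def uc (u : G) : Cu u := ⟨u, Subgroup.mem_centralizer_singleton_iff.2 rfl⟩

theorem uc_center (u : G) : uc u ∈ Subgroup.center (Cu u) := by
  rw [Subgroup.mem_center_iff]
  intro x
  exact Subtype.ext (Subgroup.mem_centralizer_singleton_iff.1 x.2)

instance uc_normal (u : G) : (Subgroup.zpowers (uc u)).Normal := by
  refine ⟨fun n hn g => ?_⟩
  have h1 : Subgroup.zpowers (uc u) ≤ Subgroup.center (Cu u) := by
    rw [Subgroup.zpowers_le]
    exact uc_center u
  have h2 := Subgroup.mem_center_iff.1 (h1 hn) g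
  rw [h2, mul_inv_cancel_right]
  exact hn

/-- the quotient of the centraliser -/
abbrev Hq (u : G) : Type := Cu u ⧸ Subgroup.zpowers (uc u)

/-- the map onto the quotient -/
abbrev pq (u : G) : Cu u →* Hq u := QuotientGroup.mk' (Subgroup.zpowers (uc u))

theorem mem_zc {u : G} (c : Cu u) : c ∈ Subgroup.zpowers (uc u) ↔ (c : G) ∈ Subgroup.zpowers u := by
  rw [Subgroup.mem_zpowers_iff, Subgroup.mem_zpowers_iff]
  constructor
  · rintro ⟨k, rfl⟩
    exact ⟨k, rfl⟩
  · rintro ⟨k, hk⟩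
    exact ⟨k, Subtype.ext hk⟩

theorem qt {ℓ : ℕ} {u : G} (h : orderOf u = ℓ) : Qt ℓ u (pq u) where
  ord := h
  sur := QuotientGroup.mk'_surjective _
  ker c := by
    rw [← mem_zc]
    exact QuotientGroup.eq_one_iff c

variable {F : Type} [Field F]

/-- the restriction to the centraliser of an element of order `ℓ` -/
theorem idem_cu {ℓ : ℕ} (hF : GoodF ℓ F) [Finite G] {e : G → F} (he : IsIdem e) {u : G}
    (hu : orderOf u = ℓ) : IsIdem (fun t : Cu u => e t) := by
  have : Fact ℓ.Prime := ⟨hF.prime⟩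
  have hp : IsPGroup ℓ (Subgroup.zpowers u) :=
    IsPGroup.of_card (n := 1) (by rw [Nat.card_zpowers, hu, pow_one])
  have hc : Subgroup.centralizer (Subgroup.zpowers u : Set G) ≤ Cu u := by
    refine Subgroup.centralizer_le ?_
    rw [Set.singleton_subset_iff]
    exact Subgroup.mem_zpowers u
  have hc' : Cu u ≤ Subgroup.centralizer (Subgroup.zpowers u : Set G) := by
    intro x hx
    rw [Subgroup.mem_centralizer_iff]
    rintro _ ⟨k, rfl⟩
    have : Commute x u := Subgroup.mem_centralizer_singleton_iff.1 hx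
    exact (this.zpow_right k).eq.symm
  have hn : Cu u ≤ Subgroup.normalizer (Subgroup.zpowers u : Set G) :=
    hc'.trans (Subgroup.centralizer_le_normalizer _)
  have h := (H20.brm ℓ F hF G (Subgroup.zpowers u) (Cu u) hp hc hn).2.2 e he
  have h2 : (fun t : Cu u => br (Subgroup.zpowers u) e t) = fun t : Cu u => e t := by
    funext t
    exact H66.br_of_mem (hc' t.2)
  rwa [h2] at h

/-- good subgroups of a factor -/
theorem gd_factor {ℓ : ℕ} (hF : GoodF ℓ F) [Finite G] {a b : G → F} (ha : IsCl a) (hb : IsCl b)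
    (hab : mulF a b = b) {Q : Subgroup G} (hQ : IsPGroup ℓ Q) (h : Gd b Q) : Gd a Q := by
  obtain ⟨g, hg, hg'⟩ := h
  by_contra hcon
  apply hg'
  have h0 : br Q a = 0 := by
    funext t
    by_cases ht : t ∈ Subgroup.centralizer (Q : Set G)
    · rw [H66.br_of_mem ht]
      by_contra h1
      exact hcon ⟨t, ht, h1⟩
    · rw [H66.br_of_not_mem ht]
      rfl
  have h1 := H66.br_mulF hF hQ (a := a) (b := b) (fun p _ t => ha t p)
    (fun p _ t => hb t p)
  have h2 := congrFun h1 g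
  rw [H66.br_of_mem hg, hab] at h2
  rw [h2, h0]
  unfold mulF
  simp

/-- good subgroups of the restriction to a subgroup -/
theorem gd_sub {e : G → F} {X : Subgroup G} {Q : Subgroup X} (h : Gd (fun t : X => e t) Q) :
    Gd e (Q.map X.subtype) := by
  obtain ⟨g, hg, hg'⟩ := h
  refine ⟨g, ?_, hg'⟩
  rw [Subgroup.mem_centralizer_iff]
  rintro _ ⟨q, hq, rfl⟩
  exact congrArg Subtype.val (Subgroup.mem_centralizer_iff.1 hg q hq)

variable (M : Ideal (integralClosure ℤ ℂ)) [M.IsMaximal]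

theorem irrE_sub (e : G → FF M) : IrrE M e ⊆ Irr G := fun _ h => h.1

theorem ze_span (e : G → FF M) {p : G → ℂ} (hp : p ∈ ZE M e) :
    p ∈ Submodule.span ℂ (IrrE M e) := by
  have h : ZE M e ≤ (Submodule.span ℂ (IrrE M e)).toAddSubgroup := by
    rw [ZE, AddSubgroup.closure_le]
    exact Submodule.subset_span
  exact h hp

theorem ze_zi (e : G → FF M) {p : G → ℂ} (hp : p ∈ ZE M e) : p ∈ ZI G :=
  AddSubgroup.closure_mono (irrE_sub M e) hp

end quot

end Pool.Agent.PP.K9.H11
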