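import Pool.Agent.Helper11_K9.Base

/-!
# Squad K9, module DT3: blocks with defect groups of order three
-/

open scoped BigOperators

noncomputable section

namespace Pool.Agent.PP.K9.H11

open Pool.Agent.Helper51_AWC Pool.Agent.Helper79_WRA Pool.Agent.PP Pool.Agent.PP.KF

attribute [local instance] Ideal.Quotient.field

section dt3

variable {M : Ideal (integralClosure ℤ ℂ)} [M.IsMaximal] {G H : Type} [Group G] [Finite G]
  [Group H] [Finite H]

/-- the projective character of a block with one character -/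
theorem pr_single {b : H → FF M} {κ : H → ℂ} (h : IrrE M b = {κ}) : pr M b = κ 1 • κ := by
  funext g
  rw [pr, h, finsum_mem_singleton, Pi.smul_apply, smul_eq_mul]

/-- the values of `Av` are Eisenstein integers, and the conjugate belongs to the square -/
theorem av_int (int : IntStmt) {ω : ℂ} (hω : IsPrimitiveRoot ω 3) {u : G} {π : Cu u →* H}
    (hπ : Qt 3 u π) {p : H → ℂ} (hp : p ∈ ZI H) (hp' : Rc 3 p) {χ : G → ℂ} (hχ : χ ∈ Irr G)
    (j : ℕ) : (∃ a b : ℤ, Av 3 π (u ^ j) p χ = a + b * ω) ∧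
      starRingEnd ℂ (Av 3 π (u ^ j) p χ) = Av 3 π (u ^ (2 * j)) p χ := by
  have : Fact (Nat.Prime 3) := ⟨Nat.prime_three⟩
  obtain ⟨m, hm⟩ := int 3 G H u π hπ p hp hp' χ hχ ω hω
  have h2 := om_sq hω
  have h3 : ω ^ 3 = 1 := hω.pow_eq_one
  constructor
  · rw [hm j, Finset.sum_range_succ, Finset.sum_range_succ, Finset.sum_range_succ,
      Finset.sum_range_zero]
    have h4 : ∀ k : ℕ, ∃ a b : ℤ, ω ^ k = a + b * ω := by
      intro k
      induction k with
      | zero => exact ⟨1, 0, by push_cast; ring⟩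
      | succ k ih =>
        obtain ⟨a, b, hab⟩ := ih
        refine ⟨-b, a - b, ?_⟩
        rw [pow_succ, hab]
        push_cast
        linear_combination (b : ℂ) * h2
    obtain ⟨a0, b0, e0⟩ := h4 (0 * j)
    obtain ⟨a1, b1, e1⟩ := h4 (1 * j)
    obtain ⟨a2, b2, e2⟩ := h4 (2 * j)
    rw [e0, e1, e2]
    refine ⟨m 0 * a0 + m 1 * a1 + m 2 * a2, m 0 * b0 + m 1 * b1 + m 2 * b2, ?_⟩
    push_cast
    ring
  · rw [hm j, hm (2 * j), map_sum]
    refine Finset.sum_congr rfl fun i _ => ?_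
    rw [map_mul, map_intCast, map_pow, conj_om hω, ← pow_mul]
    congr 2
    ring

/-- an element of order three generates the group -/
theorem pow_of_ne {v w : G} (hv : orderOf v = 3) (hw : w ∈ Subgroup.zpowers v) :
    ∃ j : ℕ, w = v ^ j := by
  obtain ⟨j, hj⟩ := (isOfFinOrder_of_finite v).mem_powers_iff_mem_zpowers.2 hw
  exact ⟨j, hj.symm⟩

variable (M) in
/-- the rows of the generalised decomposition numbers -/
def DD (e : G → FF M) (v : G) (π : Cu v →* H) : Set (IrrE M e → ℂ) :=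
  {δ | ∃ w ∈ Subgroup.zpowers v, w ≠ 1 ∧ ∃ γ : Cu v → FF M, IsBlk γ ∧
    mulF (fun t : Cu v => e t) γ = γ ∧ ∃ κ : H → ℂ, IrrE M (H75.push π γ) = {κ} ∧
    δ = fun θ => Av 3 π w κ θ.1}

/-- `Rc` and automorphisms -/
theorem rc_comp {κ : H → ℂ} (h : Rc 3 κ) (τ : H ≃* H) : Rc 3 (fun x => κ (τ x)) where
  cl x y := by
    change κ (τ (y * x * y⁻¹)) = κ (τ x)
    rw [map_mul, map_mul, map_inv, h.cl]
  sg x hx := by
    apply h.sg
    intro h1
    apply hx
    unfold Reg at h1 ⊢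
    rwa [MulEquiv.orderOf_eq] at h1

/-- irreducible characters and automorphisms -/
theorem irr_comp {κ : H → ℂ} (h : κ ∈ Irr H) (τ : H ≃* H) : (fun x => κ (τ x)) ∈ Irr H := by
  have := Fintype.ofFinite H
  obtain ⟨n, ρ, hρ, rfl⟩ := h
  have h1 : (fun x => ρ.character (τ x)) =
      Representation.character (ρ.comp τ.toMonoidHom : Representation ℂ H (Fin n → ℂ)) := rfl
  rw [h1]
  apply mem_Irr_of_norm
  have h2 := irr_orth_self (mem_Irr_of_irreducible ρ)
  rw [← h2, ← Equiv.sum_comp τ.toEquiv (fun x => ρ.character x * ρ.character x⁻¹)]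
  refine Finset.sum_congr rfl fun x _ => ?_
  change ρ.character (τ x) * ρ.character (τ x⁻¹) = ρ.character (τ x) * ρ.character (τ x)⁻¹
  rw [map_inv]

end dt3

theorem dt3 (kap : KapStmt) (val : ValStmt) (eis : EisStmt) (sec : SecStmt) (cnj : CnjStmt)
    (int : IntStmt) (azr : AzrStmt) (nz : NzStmt) (prg : PrgStmt) : Dt3Stmt := by
  intro M _ hM G _ _ e he V hV hV3
  classical
  have f3 : Fact (Nat.Prime 3) := ⟨Nat.prime_three⟩
  have hF : GoodF 3 (FF M) := H50.fld 3 Nat.prime_three M hM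
  -- a generator of `V`
  obtain ⟨v, hv, rfl⟩ : ∃ v : G, orderOf v = 3 ∧ Subgroup.zpowers v = V := by
    obtain ⟨x, hx⟩ := exists_prime_orderOf_dvd_card' (G := V) 3 (by rw [hV3])
    refine ⟨x, by rw [Subgroup.orderOf_coe, hx], ?_⟩
    apply Subgroup.eq_of_le_of_card_ge
    · rw [Subgroup.zpowers_le]
      exact x.2
    · rw [hV3, Nat.card_zpowers, Subgroup.orderOf_coe, hx]
  have hπ : Qt 3 v (pq v) := qt hv
  have hfin : Finite (Hq v) := inferInstance
  have hc' : Cu v ≤ Subgroup.centralizer (Subgroup.zpowers v : Set G) := by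
    intro x hx
    rw [Subgroup.mem_centralizer_iff]
    rintro _ ⟨k, rfl⟩
    have : Commute x v := Subgroup.mem_centralizer_singleton_iff.1 hx
    exact (this.zpow_right k).eq.symm
  have hab : ∀ a ∈ Subgroup.zpowers v, ∀ b ∈ Subgroup.zpowers v, a * b = b * a := by
    rintro _ ⟨i, rfl⟩ _ ⟨j, rfl⟩
    exact ((Commute.refl v).zpow_zpow i j).eq
  have heC : IsIdem (fun t : Cu v => e t) := idem_cu hF he.1 hv
  -- the blocks of the centraliser
  have hκ := fun (γ : Cu v → FF M) (hγ : IsBlk γ) (hγe : mulF (fun t : Cu v => e t) γ = γ) =>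
    kap 3 M hM G (Hq v) e he v hV (pq v) hπ γ hγ hγe
  obtain ⟨g, hg, hge⟩ := hV.gd
  have hgC : g ∈ Cu v := Subgroup.mem_centralizer_singleton_iff.2
    (Subgroup.mem_centralizer_iff.1 hg v (Subgroup.mem_zpowers v)).symm
  obtain ⟨γ₀, hγ₀, hγ₀e, -⟩ := H69.exists_blk heC (g := ⟨g, hgC⟩) hge
  obtain ⟨κ₀, hκ₀, -⟩ := hκ γ₀ hγ₀ hγ₀e
  have hfi : (Irr G).Finite := by
    have := Fintype.ofFinite G
    exact irr_finite'
  have := (hfi.subset (irrE_sub M e)).fintype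
  have hirr := irrE_sub M e
  -- a primitive third root of unity
  obtain ⟨ω, hω⟩ : ∃ ω : ℂ, IsPrimitiveRoot ω 3 :=
    ⟨_, Complex.isPrimitiveRoot_exp 3 (by norm_num)⟩
  -- degrees
  have hdeg : ∀ θ : IrrE M e, ∃ d : ℕ, 0 < d ∧ θ.1 1 = d := fun θ => irr_one (hirr θ.2)
  choose deg hd0 hd using hdeg
  -- the values outside the block
  have hout : ∀ γ : Cu v → FF M, IsBlk γ → mulF (fun t : Cu v => e t) γ = γ → ∀ κ : Hq v → ℂ,
      IrrE M (H75.push (pq v) γ) = {κ} → Rc 3 κ → ∀ w ∈ Subgroup.zpowers v, w ≠ 1 →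
      ∀ χ ∈ Irr G, χ ∉ IrrE M e → Av 3 (pq v) w κ χ = 0 := by
    intro γ hγ hγe κ hk hr w hw hw1 χ hχ hχ'
    exact azr 3 M hM G (Hq v) v (pq v) hπ e he.1 γ hγ.1 hγe κ
      (Submodule.subset_span (by rw [hk]; rfl)) hr w hw hw1 χ hχ hχ'
  have hrc : ∀ γ : Cu v → FF M, IsBlk γ → mulF (fun t : Cu v => e t) γ = γ → ∀ κ : Hq v → ℂ,
      IrrE M (H75.push (pq v) γ) = {κ} → Rc 3 κ ∧ κ ∈ Irr (Hq v) := by
    intro γ hγ hγe κ hk
    obtain ⟨κ', hk', hr'⟩ := hκ γ hγ hγe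
    have h1 : κ' = κ := Set.singleton_injective (hk'.symm.trans hk)
    subst h1
    refine ⟨hr', ?_⟩
    have h2 : κ' ∈ IrrE M (H75.push (pq v) γ) := by rw [hk]; rfl
    exact h2.1
  -- two functions on `H` which are equal or orthogonal
  have horth : ∀ κ κ' : Hq v → ℂ, κ ∈ Irr (Hq v) → κ' ∈ Irr (Hq v) → Rc 3 κ → Rc 3 κ' →
      ∀ w ∈ Subgroup.zpowers v, w ≠ 1 → κ ≠ κ' →
      (∀ χ ∈ Irr G, χ ∉ IrrE M e → Av 3 (pq v) w κ χ = 0) →
      ∑ θ : IrrE M e, Av 3 (pq v) w κ θ.1 * starRingEnd ℂ (Av 3 (pq v) w κ' θ.1) = 0 := by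
    intro κ κ' hk hk' hr hr' w hw hw1 hne h0
    have h1 := (sec 3 G (Hq v) v (pq v) hπ κ κ' hr hr' w hw hw1).1
    rw [ipn_ne hk' hk (Ne.symm hne), mul_zero, sum_irr hirr _ (fun χ hχ hχ' => by
      rw [h0 χ hχ hχ', zero_mul])] at h1
    exact h1
  have hmain := eis (IrrE M e) ω hω deg (fun θ => (hd0 θ).ne') (DD M e v (pq v)) ?_ ?_ ?_
  rotate_left
  · exact ⟨_, v, Subgroup.mem_zpowers v, fun h => by
      rw [h, orderOf_one] at hv
      omega, γ₀, hγ₀, hγ₀e, κ₀, hκ₀, rfl⟩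
  · rintro _ ⟨w, hw, hw1, γ, hγ, hγe, κ, hk, rfl⟩
    obtain ⟨hr, hki⟩ := hrc γ hγ hγe κ hk
    obtain ⟨j, rfl⟩ := pow_of_ne hv hw
    have hout' := hout γ hγ hγe κ hk hr _ hw hw1
    have hsec := sec 3 G (Hq v) v (pq v) hπ κ κ hr hr _ hw hw1
    refine ⟨fun θ => ⟨?_, ?_⟩, ?_, ?_, ?_⟩
    · -- not zero
      change Av 3 (pq v) (v ^ j) κ θ.1 ≠ 0
      intro h0
      have h1 := (prg 3 M hM).2 G (Hq v) v (pq v) hπ γ hγ.1 _ hw θ.1 (hirr θ.2)
      rw [pr_single hk, Av_smul, h0, mul_zero] at h1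
      refine nz 3 M hM G e he _ hV hab v (Subgroup.mem_zpowers v) γ hγ hγe ?_ _ hw θ.1 θ.2 h1.symm
      obtain ⟨c, hc⟩ : ∃ c, γ c ≠ 0 := by
        by_contra hcon
        push Not at hcon
        exact hγ.2.1 (funext hcon)
      refine ⟨c, ?_, hc⟩
      rw [Subgroup.mem_centralizer_iff]
      intro x hx
      apply Subtype.ext
      exact Subgroup.mem_centralizer_iff.1 (hc' c.2) x.1 (Subgroup.mem_subgroupOf.1 hx)
    · exact (av_int int hω hπ (AddSubgroup.subset_closure hki) hr (hirr θ.2) j).1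
    · have h1 := hsec.1
      rw [ipn_self hki, mul_one, sum_irr hirr _ (fun χ hχ hχ' => by
        rw [hout' χ hχ hχ', zero_mul])] at h1
      exact_mod_cast h1
    · have h1 := hsec.2.1
      rw [sum_irr hirr _ (fun χ hχ hχ' => by rw [hout' χ hχ hχ', zero_mul])] at h1
      rw [← h1]
      exact Finset.sum_congr rfl fun θ _ => by rw [hd θ]
    · refine ⟨v ^ (2 * j), Subgroup.npow_mem_zpowers v _, ?_, γ, hγ, hγe, κ, hk, ?_⟩
      · intro h1
        apply hw1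
        have h2 : orderOf v ∣ 2 * j := orderOf_dvd_of_pow_eq_one h1
        rw [hv] at h2
        have h3 : 3 ∣ j := (Nat.Coprime.dvd_mul_left (by norm_num)).1 h2
        rw [← hv] at h3
        exact orderOf_dvd_iff_pow_eq_one.1 h3
      · funext θ
        exact (av_int int hω hπ (AddSubgroup.subset_closure hki) hr (hirr θ.2) j).2
  · rintro _ ⟨w, hw, hw1, γ, hγ, hγe, κ, hk, rfl⟩ _ ⟨w', hw', hw1', γ', hγ', hγe', κ', hk', rfl⟩ hne
    obtain ⟨hr, hki⟩ := hrc γ hγ hγe κ hk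
    obtain ⟨hr', hki'⟩ := hrc γ' hγ' hγe' κ' hk'
    have hout' := hout γ hγ hγe κ hk hr w hw hw1
    by_cases hcj : ∃ t : G, w' = t * w * t⁻¹
    · obtain ⟨t, ht⟩ := hcj
      obtain ⟨τ, hτ⟩ := cnj 3 G (Hq v) v (pq v) hπ w hw hw1 w' hw' t ht
      have h3 : ∀ θ : IrrE M e, Av 3 (pq v) w' κ' θ.1 =
          Av 3 (pq v) w (fun h => κ' (τ h)) θ.1 := fun θ => hτ κ' θ.1 (hirr θ.2)
      have h2 : (fun θ : IrrE M e => Av 3 (pq v) w' κ' θ.1) =
          fun θ : IrrE M e => Av 3 (pq v) w (fun h => κ' (τ h)) θ.1 := funext h3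
      simp only [h3]
      apply horth κ _ hki (irr_comp hki' τ) hr (rc_comp hr' τ) w hw hw1 _ hout'
      intro h4
      apply hne
      rw [h2, ← h4]
    · have h1 := (sec 3 G (Hq v) v (pq v) hπ κ κ' hr hr' w hw hw1).2.2 w' hw' hw1' hcj
      rw [sum_irr hirr _ (fun χ hχ hχ' => by rw [hout' χ hχ hχ', zero_mul])] at h1
      exact h1
  -- the virtual characters
  have hmem : ∀ a : IrrE M e → ℤ, (∑ θ : IrrE M e, a θ • (θ : G → ℂ)) ∈ ZE M e := fun a =>
    AddSubgroup.sum_mem _ fun θ _ => AddSubgroup.zsmul_mem _ (AddSubgroup.subset_closure θ.2) _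
  have hRc : ∀ a : IrrE M e → ℤ, (∀ δ ∈ DD M e v (pq v), ∑ i, (a i : ℂ) * δ i = 0) →
      Rc 3 (∑ θ : IrrE M e, a θ • (θ : G → ℂ)) := by
    intro a ha
    refine ⟨?_, ?_⟩
    · intro x y
      rw [Finset.sum_apply, Finset.sum_apply]
      refine Finset.sum_congr rfl fun θ _ => ?_
      rw [Pi.smul_apply, Pi.smul_apply, irr_conj (hirr θ.2)]
    · refine val 3 M hM G (Hq v) e he v hV (pq v) hπ _ (ze_span M e (hmem a)) ?_
      intro γ hγ hγe κ hk w hw hw1
      obtain ⟨κ', hk', hr'⟩ := hκ γ hγ hγe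
      have h1 : κ = κ' := by rw [hk'] at hk; exact hk
      subst h1
      rw [Av_comb]
      exact ha _ ⟨w, hw, hw1, γ, hγ, hγe, κ, hk', rfl⟩
  have hpr : pr M e = fun g => ∑ θ : IrrE M e, (deg θ : ℂ) * (θ : G → ℂ) g := by
    funext g
    rw [pr, ← finsum_set_coe_eq_finsum_mem (IrrE M e) (f := fun χ : G → ℂ => χ 1 * χ g),
      finsum_eq_sum_of_fintype]
    exact Finset.sum_congr rfl fun θ _ => by rw [hd θ]
  rcases hmain with ⟨a, ha3, haD, c, hc⟩ | ⟨a, b, ha2, hb2, hab1, habD, c, d, hcd⟩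
  · left
    refine ⟨_, hmem a, hRc a haD, ?_, c, ?_⟩
    · rw [ipn_comb hirr, ha3]
      norm_num
    · rw [hpr]
      funext g
      rw [Pi.smul_apply, Finset.sum_apply, smul_eq_mul, Finset.mul_sum]
      refine Finset.sum_congr rfl fun θ _ => ?_
      rw [hc θ, Pi.smul_apply, zsmul_eq_mul]
      ring
  · right
    refine ⟨_, hmem a, _, hmem b, hRc a fun δ hδ => (habD δ hδ).1, hRc b fun δ hδ => (habD δ hδ).2,
      ?_, ?_, ?_, ?_, c, d, ?_⟩
    · rw [ipn_comb hirr, ha2]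
      norm_num
    · rw [ipn_comb hirr, hb2]
      norm_num
    · rw [ipn_comb hirr, hab1]
      norm_num
    · rw [ipn_comb hirr]
      have h1 : ∑ θ : IrrE M e, b θ * a θ = 1 := by
        rw [← hab1]
        exact Finset.sum_congr rfl fun θ _ => mul_comm _ _
      rw [h1]
      norm_num
    · rw [hpr]
      funext g
      rw [Pi.add_apply, Pi.smul_apply, Pi.smul_apply, Finset.sum_apply, Finset.sum_apply,
        smul_eq_mul, smul_eq_mul, Finset.mul_sum, Finset.mul_sum, ← Finset.sum_add_distrib]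
      refine Finset.sum_congr rfl fun θ _ => ?_
      rw [hcd θ, Pi.smul_apply, Pi.smul_apply, zsmul_eq_mul, zsmul_eq_mul]
      ring

end Pool.Agent.PP.K9.H11
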