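import Pool.Agent.Helper11_K9.DT3
import Pool.Agent.Helper24_D2.Psb

/-!
# Squad K9, module K9: a block with a defect group of order nine has at most nine characters
-/

open scoped BigOperators

noncomputable section

namespace Pool.Agent.PP.K9.H11

open Pool.Agent.Helper51_AWC Pool.Agent.Helper79_WRA Pool.Agent.PP Pool.Agent.PP.KF

attribute [local instance] Ideal.Quotient.field

theorem ker_pq {G : Type} [Group G] (u : G) : (pq u).ker = Subgroup.zpowers (uc u) :=
  QuotientGroup.ker_mk' _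

theorem k9 (dt3 : Dt3Stmt) (pug : PugStmt) (int : IntStmt) (sec : SecStmt) (azr : AzrStmt)
    (nz : NzStmt) (prg : PrgStmt) : K9Stmt := by
  intro M _ hM G _ _ e he V hV hV9
  classical
  have f3 : Fact (Nat.Prime 3) := ⟨Nat.prime_three⟩
  have hF : GoodF 3 (FF M) := H50.fld 3 Nat.prime_three M hM
  -- `V` is abelian
  have hab : ∀ a ∈ V, ∀ b ∈ V, a * b = b * a := by
    intro a ha b hb
    have h1 := IsPGroup.commutative_of_card_eq_prime_sq (G := V) (p := 3) (by rw [hV9]; norm_num)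
      ⟨a, ha⟩ ⟨b, hb⟩
    exact congrArg Subtype.val h1
  -- an element of order three
  obtain ⟨u, huV, hu⟩ : ∃ u ∈ V, orderOf u = 3 := by
    obtain ⟨x, hx⟩ := exists_prime_orderOf_dvd_card' (G := V) 3 (by rw [hV9]; norm_num)
    exact ⟨x, x.2, by rw [Subgroup.orderOf_coe, hx]⟩
  have hu1 : u ≠ 1 := fun h => by
    rw [h, orderOf_one] at hu
    omega
  have hπ : Qt 3 u (pq u) := qt hu
  have hfin : Finite (Hq u) := inferInstance
  have huu : orderOf (uc u) = 3 := by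
    rw [← hu]
    exact Subgroup.orderOf_mk u _
  have hVC : V ≤ Cu u := fun x hx => Subgroup.mem_centralizer_singleton_iff.2 (hab x hx u huV)
  have heC : IsIdem (fun t : Cu u => e t) := idem_cu hF he.1 hu
  -- the block of the centraliser
  obtain ⟨g, hg, hge⟩ := hV.gd
  have hgC : g ∈ Cu u := Subgroup.mem_centralizer_singleton_iff.2
    (Subgroup.mem_centralizer_iff.1 hg u huV).symm
  obtain ⟨b, hb, hbe, hbg⟩ := H69.exists_blk heC (g := ⟨g, hgC⟩) hge
  have hbV : Gd b (V.subgroupOf (Cu u)) := by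
    refine ⟨⟨g, hgC⟩, ?_, hbg⟩
    rw [Subgroup.mem_centralizer_iff]
    intro x hx
    apply Subtype.ext
    exact Subgroup.mem_centralizer_iff.1 hg x.1 (Subgroup.mem_subgroupOf.1 hx)
  -- the quotient
  have hker := ker_pq u
  have hkc : Nat.card (pq u).ker = 3 := by rw [hker, Nat.card_zpowers, huu]
  have hkp : IsPGroup 3 (pq u).ker := IsPGroup.of_card (n := 1) (by rw [hkc, pow_one])
  have hb' : IsBlk (H75.push (pq u) b) :=
    CD2.H24.psb 3 (FF M) hF (Cu u) (Hq u) (pq u) hπ.sur (uc u) huu (uc_center u) hker b hb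
  have hkV : (pq u).ker ≤ V.subgroupOf (Cu u) := by
    rw [hker, Subgroup.zpowers_le]
    exact huV
  have hVp : IsPGroup 3 (V.subgroupOf (Cu u)) :=
    hV.pg.of_equiv (Subgroup.subgroupOfEquivOfLe hVC).symm
  have hVc : Nat.card (V.subgroupOf (Cu u)) = 9 := by
    rw [← hV9]
    exact Nat.card_congr (Subgroup.subgroupOfEquivOfLe hVC).toEquiv
  have hcard : ∀ Q : Subgroup (Hq u), Nat.card (Q.comap (pq u)) = 3 * Nat.card Q := by
    intro Q
    have := H75.card_comap (p := pq u) hπ.sur Q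
    rw [this, hkc]
  have hcm : ((V.subgroupOf (Cu u)).map (pq u)).comap (pq u) = V.subgroupOf (Cu u) :=
    Subgroup.comap_map_eq_self hkV
  have hV' : Nat.card ((V.subgroupOf (Cu u)).map (pq u)) = 3 := by
    have h1 := hcard ((V.subgroupOf (Cu u)).map (pq u))
    rw [hcm, hVc] at h1
    omega
  have hTp : Tp 3 (H75.push (pq u) b) ((V.subgroupOf (Cu u)).map (pq u)) := by
    refine ⟨hVp.map _, (pug 3 (FF M) hF (Cu u) (Hq u) (pq u) hπ.sur hkp b hb.1 _ hkV hVp).1 hbV, ?_⟩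
    intro Q hQ hQb
    have h1 : Q = (Q.comap (pq u)).map (pq u) :=
      (Subgroup.map_comap_eq_self_of_surjective hπ.sur Q).symm
    have h2 : IsPGroup 3 (Q.comap (pq u)) := by
      obtain ⟨n, hn⟩ := (IsPGroup.iff_card).1 hQ
      exact IsPGroup.of_card (n := n + 1) (by rw [hcard, hn, pow_succ, mul_comm])
    have h3 : (pq u).ker ≤ Q.comap (pq u) := by
      intro x hx
      rw [Subgroup.mem_comap, MonoidHom.mem_ker.1 hx]
      exact Q.one_mem
    rw [h1] at hQb
    have h4 := (pug 3 (FF M) hF (Cu u) (Hq u) (pq u) hπ.sur hkp b hb.1 _ h3 h2).2 hQb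
    have h5 := gd_sub (gd_factor hF heC.1 hb.1.1 hbe h2 h4)
    have h6 := hV.mx _ (h2.map _) h5
    have h7 : Nat.card ((Q.comap (pq u)).map (Cu u).subtype) = Nat.card (Q.comap (pq u)) :=
      (Nat.card_congr ((Q.comap (pq u)).equivMapOfInjective _
        (Subgroup.subtype_injective _)).toEquiv).symm
    rw [h7, hcard, hV9] at h6
    rw [hV']
    omega
  -- the characters of `e`
  have hfi : (Irr G).Finite := by
    have := Fintype.ofFinite G
    exact irr_finite'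
  have := (hfi.subset (irrE_sub M e)).fintype
  have hirr := irrE_sub M e
  obtain ⟨ω, hω⟩ : ∃ ω : ℂ, IsPrimitiveRoot ω 3 :=
    ⟨_, Complex.isPrimitiveRoot_exp 3 (by norm_num)⟩
  have huz : u ∈ Subgroup.zpowers u := Subgroup.mem_zpowers u
  have hout : ∀ p ∈ ZE M (H75.push (pq u) b), Rc 3 p → ∀ χ ∈ Irr G, χ ∉ IrrE M e →
      Av 3 (pq u) u p χ = 0 := by
    intro p hp hr χ hχ hχ'
    exact azr 3 M hM G (Hq u) u (pq u) hπ e he.1 b hb.1 hbe p (ze_span M _ hp) hr u huz hu1 χ hχ hχ'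
  have hne : ∀ θ : IrrE M e, Av 3 (pq u) u (pr M (H75.push (pq u) b)) θ.1 ≠ 0 := by
    intro θ
    rw [(prg 3 M hM).2 G (Hq u) u (pq u) hπ b hb.1 u huz θ.1 (hirr θ.2)]
    exact nz 3 M hM G e he V hV hab u huV b hb hbe hbV u huz θ.1 θ.2
  have hint : ∀ p ∈ ZE M (H75.push (pq u) b), Rc 3 p → ∀ θ : IrrE M e,
      ∃ n : ℤ, Av 3 (pq u) u p θ.1 * starRingEnd ℂ (Av 3 (pq u) u p θ.1) = n ∧ 0 ≤ n ∧
        (Av 3 (pq u) u p θ.1 ≠ 0 → 1 ≤ n) := by
    intro p hp hr θ
    have h1 := (av_int int hω hπ (ze_zi M _ hp) hr (hirr θ.2) 1).1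
    rw [pow_one] at h1
    exact norm_om hω _ h1
  have hsum : ∀ p ∈ ZE M (H75.push (pq u) b), Rc 3 p →
      ∑ θ : IrrE M e, Av 3 (pq u) u p θ.1 * starRingEnd ℂ (Av 3 (pq u) u p θ.1) =
        3 * ipn p p := by
    intro p hp hr
    have h1 := (sec 3 G (Hq u) u (pq u) hπ p p hr hr u huz hu1).1
    rw [sum_irr hirr _ (fun χ hχ hχ' => by rw [hout p hp hr χ hχ hχ', zero_mul])] at h1
    exact_mod_cast h1
  have hk : (IrrE M e).ncard = Fintype.card (IrrE M e) := by
    rw [← Nat.card_coe_set_eq, Nat.card_eq_fintype_card]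
  rw [hk]
  rcases dt3 M hM (Hq u) (H75.push (pq u) b) hb' _ hTp hV' with
    ⟨p, hp, hr, hp3, c, hc⟩ | ⟨p₁, hp₁, p₂, hp₂, hr₁, hr₂, h11, h22, h12, h21, c₁, c₂, hcc⟩
  · choose n hn hn0 hn1 using hint p hp hr
    have h1 : ∀ θ, 1 ≤ n θ := by
      intro θ
      apply hn1
      intro h0
      apply hne θ
      rw [hc, Av_smul, h0, mul_zero]
    have h2 : ((∑ θ, n θ : ℤ) : ℂ) = (9 : ℤ) := by
      push_cast
      rw [← Finset.sum_congr rfl fun θ _ => hn θ, hsum p hp hr, hp3]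
      norm_num
    have h3 : ∑ θ, n θ = 9 := by exact_mod_cast h2
    have h4 : ∑ _θ : IrrE M e, (1 : ℤ) ≤ ∑ θ, n θ := Finset.sum_le_sum fun θ _ => h1 θ
    rw [h3, Finset.sum_const, Finset.card_univ, nsmul_eq_mul, mul_one] at h4
    exact_mod_cast h4
  · have hp₃ : p₁ - p₂ ∈ ZE M (H75.push (pq u) b) := AddSubgroup.sub_mem _ hp₁ hp₂
    have hr₃ : Rc 3 (p₁ - p₂) := by
      refine ⟨fun x y => ?_, fun x hx => ?_⟩
      · rw [Pi.sub_apply, Pi.sub_apply, hr₁.cl, hr₂.cl]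
      · rw [Pi.sub_apply, hr₁.sg x hx, hr₂.sg x hx, sub_zero]
    have h33 : ipn (p₁ - p₂) (p₁ - p₂) = 2 := by
      rw [ipn_sub_left, ipn_sub_right, ipn_sub_right, h11, h22, h12, h21]
      norm_num
    choose n hn hn0 hn1 using hint p₁ hp₁ hr₁
    choose m hm hm0 hm1 using hint p₂ hp₂ hr₂
    choose k hk' hk0 hk1 using hint _ hp₃ hr₃
    have h1 : ∀ θ, 2 ≤ n θ + m θ + k θ := by
      intro θ
      have e1 := hn0 θ
      have e2 := hm0 θ
      have e3 := hk0 θ
      have h0 := hne θ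
      rw [hcc, Av_add, Av_smul, Av_smul] at h0
      have e4 := Av_sub 3 (pq u) u p₁ p₂ θ.1
      by_cases i1 : Av 3 (pq u) u p₁ θ.1 = 0
      · have i2 : Av 3 (pq u) u p₂ θ.1 ≠ 0 := by
          intro h
          apply h0
          rw [i1, h, mul_zero, mul_zero, add_zero]
        have i3 : Av 3 (pq u) u (p₁ - p₂) θ.1 ≠ 0 := by
          rw [e4, i1, zero_sub]
          exact neg_ne_zero.2 i2
        have j2 := hm1 θ i2
        have j3 := hk1 θ i3
        omega
      · have j1 := hn1 θ i1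
        by_cases i2 : Av 3 (pq u) u p₂ θ.1 = 0
        · have i3 : Av 3 (pq u) u (p₁ - p₂) θ.1 ≠ 0 := by
            rw [e4, i2, sub_zero]
            exact i1
          have j3 := hk1 θ i3
          omega
        · have j2 := hm1 θ i2
          omega
    have s1 : ((∑ θ, n θ : ℤ) : ℂ) = (6 : ℤ) := by
      push_cast
      rw [← Finset.sum_congr rfl fun θ _ => hn θ, hsum p₁ hp₁ hr₁, h11]
      norm_num
    have s2 : ((∑ θ, m θ : ℤ) : ℂ) = (6 : ℤ) := by
      push_cast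
      rw [← Finset.sum_congr rfl fun θ _ => hm θ, hsum p₂ hp₂ hr₂, h22]
      norm_num
    have s3 : ((∑ θ, k θ : ℤ) : ℂ) = (6 : ℤ) := by
      push_cast
      rw [← Finset.sum_congr rfl fun θ _ => hk' θ, hsum _ hp₃ hr₃, h33]
      norm_num
    have t1 : ∑ θ, n θ = 6 := by exact_mod_cast s1
    have t2 : ∑ θ, m θ = 6 := by exact_mod_cast s2
    have t3 : ∑ θ, k θ = 6 := by exact_mod_cast s3
    have h4 : ∑ _θ : IrrE M e, (2 : ℤ) ≤ ∑ θ, (n θ + m θ + k θ) :=
      Finset.sum_le_sum fun θ _ => h1 θ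
    rw [Finset.sum_add_distrib, Finset.sum_add_distrib, t1, t2, t3, Finset.sum_const,
      Finset.card_univ, nsmul_eq_mul] at h4
    have h5 : (Fintype.card (IrrE M e) : ℤ) ≤ 9 := by linarith
    exact_mod_cast h5

end Pool.Agent.PP.K9.H11
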